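import Mathlib

/-!
# Cyclic quotients
-/

set_option autoImplicit false

namespace Pool.Agent.H74.LG

variable {G : Type} [Group G] [Finite G]

lemma cyc_dom {A : Type*} [CommRing A] [IsDomain A] (f : G →* A) :
    ∃ g, f.ker ⊔ Subgroup.zpowers g = ⊤ := by
  let F : G ⧸ f.ker →* A := QuotientGroup.lift f.ker f (fun x hx => hx)
  have hF : Function.Injective F := by
    rw [injective_iff_map_eq_one]
    intro q hq
    obtain ⟨x, rfl⟩ := QuotientGroup.mk_surjective q
    rw [QuotientGroup.eq_one_iff]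
    exact hq
  have hcyc : IsCyclic (G ⧸ f.ker) := isCyclic_of_injective_ringHom F hF
  obtain ⟨q, hq⟩ := hcyc.exists_generator
  obtain ⟨g, rfl⟩ := QuotientGroup.mk_surjective q
  refine ⟨g, eq_top_iff.2 fun x _ => ?_⟩
  obtain ⟨n, hn⟩ := Subgroup.mem_zpowers_iff.1 (hq (x : G ⧸ f.ker))
  have h1 : x * (g ^ n)⁻¹ ∈ f.ker := by
    rw [← QuotientGroup.eq_one_iff, QuotientGroup.mk_mul, QuotientGroup.mk_inv,
      QuotientGroup.mk_zpow, hn, mul_inv_cancel]
  have h2 : x = (x * (g ^ n)⁻¹) * g ^ n := by group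
  rw [h2]
  exact Subgroup.mul_mem_sup h1 (Subgroup.zpow_mem_zpowers g n)

lemma cyc_ring {E : Type*} [Ring E] [Nontrivial E] (σ : G →* E)
    (B : Subring E) (hσ : ∀ g, σ g ∈ B) (hc : ∀ x ∈ B, ∀ y ∈ B, x * y = y * x)
    (hz : ∀ x ∈ B, ∀ y ∈ B, x * y = 0 → x = 0 ∨ y = 0) :
    ∃ g, σ.ker ⊔ Subgroup.zpowers g = ⊤ := by
  let i1 : CommRing B := { B.toRing with mul_comm := fun x y => Subtype.ext (hc x.1 x.2 y.1 y.2) }
  have i2 : NoZeroDivisors B := ⟨fun {x y} hxy => by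
    rcases hz x.1 x.2 y.1 y.2 (congrArg Subtype.val hxy) with h | h
    · exact Or.inl (Subtype.ext h)
    · exact Or.inr (Subtype.ext h)⟩
  have i3 : Nontrivial B := ⟨⟨0, 1, fun h => zero_ne_one (congrArg Subtype.val h)⟩⟩
  have i4 : IsDomain B := NoZeroDivisors.to_isDomain B
  let f : G →* B :=
    { toFun := fun g => ⟨σ g, hσ g⟩
      map_one' := Subtype.ext (map_one σ)
      map_mul' := fun x y => Subtype.ext (map_mul σ x y) }
  have hfker : f.ker = σ.ker := by
    ext x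
    rw [MonoidHom.mem_ker, MonoidHom.mem_ker]
    exact ⟨fun h => congrArg Subtype.val h, fun h => Subtype.ext h⟩
  rw [← hfker]
  exact cyc_dom f

end Pool.Agent.H74.LG
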