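import Pool.Agent.H74.LG.Defs
import Pool.Agent.H74.LG.Cyc
import Pool.Graph.R_seed8.H447R3.WtB

/-!
# The Lefschetz standard conjecture and finite groups of automorphisms
-/

set_option autoImplicit false

open CategoryTheory AlgebraicGeometry Finset Pool.Agent.X328.PB Pool.Agent.X310.Mu

universe u v

namespace Pool.Agent.H74.LG

open Pool.Agent.H914 VarClass Obj WeilCohomology Pool.Agent.X252.GA Pool.Agent.X252.GC

section Abs

variable {K V : Type*} [Field K] [CharZero K] [AddCommGroup V] [Module K V]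
  {G : Type} [Group G] [Fintype G]

/-- The quotient of a finite commutative group by the kernel of an irreducible representation is
cyclic. -/
lemma cyclic_ker {G : Type} [Group G] [Finite G] {S : Type} [AddCommGroup S] [Module ℚ S]
    (σ : G →* Module.End ℚ S)
    (hσ : Irred σ) (hcomm : ∀ x y : G, x * y = y * x) (hS : ∃ s : S, s ≠ 0) :
    ∃ g, σ.ker ⊔ Subgroup.zpowers g = ⊤ := by
  obtain ⟨s, hs⟩ := hS
  have i0 : Nontrivial (Module.End ℚ S) := ⟨⟨0, 1, fun h => hs (by
    have h2 := congrArg (fun F : Module.End ℚ S => F s) h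
    exact h2.symm)⟩⟩
  have hcl : ∀ x ∈ Subring.closure (Set.range σ), ∀ g, x * σ g = σ g * x := by
    intro x hx g
    induction hx using Subring.closure_induction with
    | mem x hx =>
      obtain ⟨y, rfl⟩ := hx
      rw [← map_mul, ← map_mul, hcomm]
    | zero => rw [zero_mul, mul_zero]
    | one => rw [one_mul, mul_one]
    | add x y _ _ hx hy => rw [add_mul, mul_add, hx, hy]
    | neg x _ hx => rw [neg_mul, mul_neg, hx]
    | mul x y _ _ hx hy => rw [mul_assoc, hy, ← mul_assoc, hx, mul_assoc]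
  refine cyc_ring σ (Subring.closure (Set.range σ))
    (fun g => Subring.subset_closure ⟨g, rfl⟩) ?_ ?_
  · intro x hx y hy
    induction hy using Subring.closure_induction with
    | mem y hy =>
      obtain ⟨g, rfl⟩ := hy
      exact hcl x hx g
    | zero => rw [zero_mul, mul_zero]
    | one => rw [one_mul, mul_one]
    | add y z _ _ hy hz => rw [add_mul, mul_add, hy, hz]
    | neg y _ hy => rw [neg_mul, mul_neg, hy]
    | mul y z _ _ hy hz => rw [← mul_assoc, hy, mul_assoc, hz, ← mul_assoc]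
  · intro x hx y _ hxy
    rcases hσ (LinearMap.ker x) (fun g u hu => by
      rw [LinearMap.mem_ker] at hu ⊢
      have h1 := congrArg (fun F : Module.End ℚ S => F u) (hcl x hx g)
      change x (σ g u) = σ g (x u) at h1
      rw [h1, hu, map_zero]) with h | h
    · right
      ext t
      have h1 := congrArg (fun F : Module.End ℚ S => F t) hxy
      have h2 : y t ∈ LinearMap.ker x := h1
      rw [h, Submodule.mem_bot] at h2
      exact h2
    · left
      exact LinearMap.ker_eq_top.1 h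

/-- Two-sided ideals of the rational group ring which contain the annihilator of a stable
subspace. -/
theorem ideal_main (act : G →* Module.End K V) (U : Submodule K V)
    (hU : ∀ g, ∀ u ∈ U, act g u ∈ U) (I : Ideal (MonoidAlgebra ℚ G))
    (hr : ∀ x ∈ I, ∀ y, x * y ∈ I)
    (hann : ∀ x : MonoidAlgebra ℚ G, (∀ u ∈ U, theta act x u = 0) → x ∈ I)
    {Q : Subgroup G → Prop} (hQ : ∀ H, Q H ↔ nA H ∈ I)
    (hmono : ∀ H H' : Subgroup G, H ≤ H' → Q H → Q H') : GroupLaws act U Q := by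
  have h1 : Q ⊥ ↔ (1 : MonoidAlgebra ℚ G) ∈ I := by rw [hQ, nA_bot]
  have hdom : ∀ (H : Subgroup G) (ι : Type) (D : ι → Subgroup G), DominatedOn act U H D →
      (∀ j, Q (D j)) → Q H := by
    intro H ι D hD h
    rw [hQ]
    refine mem_of_dominatedOn (H := H) (D := D) (fun V _ _ ρ => Occurs act U ρ) ?_ _ hr
      (fun j => (hQ _).1 (h j)) ?_
    · intro V _ _ ρ hρ hQ hv
      exact hD V ρ hρ hQ hv
    · intro S hS
      exact occurs_of_ann _ hU _ hr hann S hS
  have hup : ∀ (H : Subgroup G), Q ⊥ → Q H := fun H h => hmono _ _ bot_le h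
  have hdown : ∀ (ι : Type) (D : ι → Subgroup G), Dominated (⊥ : Subgroup G) D →
      (∀ j, Q (D j)) → Q ⊥ := by
    intro ι D hD h
    rw [h1]
    exact one_mem_of_dominated hD _ hr fun j => (hQ _).1 (h j)
  have hker : Q ⊥ ↔ ∀ (S : Type) [AddCommGroup S] [Module ℚ S] (σ : G →* Module.End ℚ S),
      Irred σ → Occurs act U σ → Q σ.ker := by
    refine ⟨fun h S _ _ σ _ _ => hup _ h, fun h => ?_⟩
    refine hdom ⊥ {N : Subgroup G // ∃ (S : Type) (_ : AddCommGroup S) (_ : Module ℚ S)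
      (σ : G →* Module.End ℚ S), Irred σ ∧ Occurs act U σ ∧ σ.ker = N} (fun N => N.1) ?_ ?_
    · intro S _ _ σ hσ ho hv
      obtain ⟨v, hv0, -⟩ := hv
      refine ⟨⟨σ.ker, S, _, _, σ, hσ, ho, rfl⟩, v, hv0, fun d hd => ?_⟩
      have h1 : σ d = 1 := hd
      rw [h1, Module.End.one_apply]
    · rintro ⟨N, S, i1, i2, σ, hσ, ho, rfl⟩
      exact h S σ hσ ho
  refine ⟨hmono, hdom, ?_, ?_, ?_, ?_, hker, ?_⟩
  · intro c hc
    refine ⟨fun h => ⟨hup _ h, hup _ h⟩, fun h => hdown _ _ (dominated_two hc ⊥) ?_⟩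
    intro b
    cases b
    · exact h.2
    · exact h.1
  · rintro c ⟨S, hSs, hS, hcS⟩ hc1 hc
    exact ⟨hup _, fun h => hdown _ _ (dominated_comms hc (comms_of_simple S hS hcS hc1) ⊥)
      fun _ => h⟩
  · rintro ι D K ⟨hf, hι, hle, hpart⟩
    exact ⟨fun h j => hup _ h, hdown _ _ (dominated_partition D K hι hle hpart ⊥)⟩
  · intro h0 hP
    obtain ⟨-, -, k3⟩ := structure_of_ideal I hr (fun h => h0 (h1.2 h))
      fun P hPp => (hQ _).1 (hP P hPp)
    refine ⟨?_, k3⟩
    by_contra hcon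
    apply h0
    refine hdom ⊥ {P : Subgroup G // (Nat.card P).Prime} (fun P => P.1) ?_ fun P => hP P.1 P.2
    intro V _ _ ρ hρ ho hv
    obtain ⟨v, hv0, -⟩ := hv
    by_contra hno
    push Not at hno
    apply hcon
    refine ⟨V, _, _, ρ, hρ, ho, ⟨v, hv0⟩, fun g hg w hw => ?_⟩
    obtain ⟨P, hPp, hPg⟩ := Pool.Agent.X328.PB.card_zpowers_prime hg
    by_contra hw0
    obtain ⟨d, hd, hd'⟩ := hno ⟨P, hPp⟩ w hw0
    exact hd' (fixed_zpow ρ hw d (hPg hd))
  · intro hcomm
    refine ⟨fun h H _ => hup _ h, fun h => hker.2 ?_⟩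
    intro S _ _ σ hσ ho
    obtain ⟨F, -, -, s, hs⟩ := ho
    exact h _ (cyclic_ker σ hσ hcomm ⟨s, fun h0 => hs (by rw [h0, map_zero])⟩)

omit [CharZero K] [Fintype G] in
lemma occurs_top {act : G →* Module.End K V} {U : Submodule K V} {S : Type} [AddCommGroup S]
    [Module ℚ S] {σ : G →* Module.End ℚ S} (h : Occurs act U σ) : Occurs act ⊤ σ := by
  obtain ⟨f, -, h2, h3⟩ := h
  exact ⟨f, fun _ => trivial, h2, h3⟩

omit [CharZero K] [Fintype G] in
/-- The laws for a family of statements on subspaces give the laws for their conjunction. -/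
lemma laws_all {act : G →* Module.End K V} {U : ℕ → Submodule K V} {Q : ℕ → Subgroup G → Prop}
    {n : ℕ} (h : ∀ i ≤ n, GroupLaws act (U i) (Q i)) :
    GroupLaws act ⊤ (fun H => ∀ i ≤ n, Q i H) := by
  refine ⟨?_, ?_, ?_, ?_, ?_, ?_, ?_, ?_⟩
  · intro H H' hH hq i hi
    exact (h i hi).1 H H' hH (hq i hi)
  · intro H ι E hE hq i hi
    refine (h i hi).2.1 H ι E ?_ fun j => hq j i hi
    intro S _ _ σ hσ ho hv
    exact hE S σ hσ (occurs_top ho) hv
  · intro c hc
    constructor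
    · intro hq
      exact ⟨fun i hi => (((h i hi).2.2.1 c hc).1 (hq i hi)).1,
        fun i hi => (((h i hi).2.2.1 c hc).1 (hq i hi)).2⟩
    · rintro ⟨h1, h2⟩ i hi
      exact ((h i hi).2.2.1 c hc).2 ⟨h1 i hi, h2 i hi⟩
  · intro c hs h1 hc
    constructor
    · intro hq i hi
      exact ((h i hi).2.2.2.1 c hs h1 hc).1 (hq i hi)
    · intro hq i hi
      exact ((h i hi).2.2.2.1 c hs h1 hc).2 (hq i hi)
  · intro ι E K hp
    constructor
    · intro hq j i hi
      exact ((h i hi).2.2.2.2.1 ι E K hp).1 (hq i hi) j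
    · intro hq i hi
      exact ((h i hi).2.2.2.2.1 ι E K hp).2 fun j => hq j i hi
  · intro h0 hP
    push Not at h0
    obtain ⟨i, hi, h1⟩ := h0
    obtain ⟨⟨S, i1, i2, σ, hσ, ho, hs, hf⟩, hc⟩ :=
      (h i hi).2.2.2.2.2.1 h1 fun P hPp => hP P hPp i hi
    exact ⟨⟨S, i1, i2, σ, hσ, occurs_top ho, hs, hf⟩, hc⟩
  · constructor
    · intro hq S _ _ σ _ _ i hi
      exact (h i hi).1 _ _ bot_le (hq i hi)
    · intro hq i hi
      exact (h i hi).2.2.2.2.2.2.1.2 fun S _ _ σ hσ ho => hq S σ hσ (occurs_top ho) i hi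
  · intro hcomm
    constructor
    · intro hq H _ i hi
      exact (h i hi).1 _ _ bot_le (hq i hi)
    · intro hq i hi
      exact ((h i hi).2.2.2.2.2.2.2 hcomm).2 fun H hH => hq H hH i hi

end Abs

variable {k : Type u} [Field k] {𝒱 : VarClass k} {ops : CycleOps 𝒱}
  {W : WeilCohomology.{u, v} ops} {X Y Z : 𝒱.Obj}

/-- The correspondence given by the image of a class under a morphism to the product. -/
lemma corr_lift (f : Z ⟶ X) (g : Z ⟶ Y) (c : W.H Z) (a : W.H X) :
    W.corr (W.push (Obj.lift f g) c) a = W.push g (c * W.map f a) := by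
  rw [corr_apply, ← W.push_mul, ← W.push_comp, ← W.map_comp]
  have e1 : Obj.lift f g ≫ snd X Y = g := Obj.lift_snd _ _
  have e2 : Obj.lift f g ≫ fst X Y = f := Obj.lift_fst _ _
  rw [e1, e2]

/-- The pull-back is an algebraic correspondence. -/
lemma exists_pull (f : X ⟶ Y) : ∃ z, (Y.prod X).IsCyc Y.dim z ∧
    W.corr (W.cl _ z) = (W.map f).toLinearMap := by
  refine ⟨ops.push (Obj.lift f (𝟙 X)) X.V.fundCycle,
    ops.push_mem _ X.V.fundCycle_mem (by simp only [dim_prod]; omega), ?_⟩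
  ext a
  rw [W.cl_push, corr_lift, W.cl_fund, one_mul, W.push_id]
  rfl

/-- The push-forward is an algebraic correspondence. -/
lemma exists_push (f : X ⟶ Y) : ∃ z, (X.prod Y).IsCyc Y.dim z ∧
    W.corr (W.cl _ z) = W.push f := by
  refine ⟨ops.push (Obj.lift (𝟙 X) f) X.V.fundCycle,
    ops.push_mem _ X.V.fundCycle_mem (by simp only [dim_prod]; omega), ?_⟩
  ext a
  rw [W.cl_push, corr_lift, W.cl_fund, one_mul, W.map_id]

section Action

variable {D : X.Cycles} {G : Type} [Group G] {act : G →* Module.End W.K (W.H X)}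
  (hact : ActsBy W X D act)
include hact

lemma rop_act (g : G) : ROp W X 0 (act g) := by
  obtain ⟨φ, hφ⟩ := hact.1 g
  have h0 : act g = (W.map φ).toLinearMap := by
    ext a
    exact hφ a
  obtain ⟨z, hz, hz'⟩ := exists_pull (W := W) φ
  have h1 := Pool.Agent.H447.rop_corr (W := W) (d := 0) (by simp) hz
  rw [hz'] at h1
  rw [h0]
  exact h1

lemma act_mem (g : G) {i : ℕ} {a : W.H X} (ha : a ∈ W.gr X i) : act g a ∈ W.gr X i := by
  obtain ⟨φ, hφ⟩ := hact.1 g
  rw [hφ]
  exact W.map_mem _ ha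

lemma act_comm (g : G) : act g * LinearMap.mulLeft W.K (W.cl X D) =
    LinearMap.mulLeft W.K (W.cl X D) * act g := by
  obtain ⟨φ, hφ⟩ := hact.1 g
  ext a
  rw [Module.End.mul_apply, Module.End.mul_apply, LinearMap.mulLeft_apply,
    LinearMap.mulLeft_apply, hφ, map_mul, ← hφ, ← hφ, hact.2]

lemma theta_L (x : MonoidAlgebra ℚ G) (m : ℕ) :
    theta act x * LinearMap.mulLeft W.K (W.cl X D) ^ m =
      LinearMap.mulLeft W.K (W.cl X D) ^ m * theta act x := by
  have h1 : theta act x * LinearMap.mulLeft W.K (W.cl X D) =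
      LinearMap.mulLeft W.K (W.cl X D) * theta act x :=
    theta_comm (act_comm hact) x
  exact (Commute.pow_right (h1 : Commute _ _) m)

omit hact in
lemma ratAlg : IsRatAlg {y : Module.End W.K (W.H X) | ROp W X 0 y} where
  zero := rop_opAlg.zero 0
  add := fun hx hy => rop_opAlg.add hx hy
  smul := fun q _ hx => rop_opAlg.smul q hx
  mul := fun hx hy => rop_opAlg.cast (rop_opAlg.mul hx hy) (by simp)

lemma rop_theta (x : MonoidAlgebra ℚ G) : ROp W X 0 (theta act x) :=
  theta_mem (Q := {y : Module.End W.K (W.H X) | ROp W X 0 y}) ratAlg (rop_act hact) x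

/-- The elements `x` of the group ring such that `x` times the inverse of `ξ ^ (dim X - i)` is
given by an algebraic cycle. -/
noncomputable def idLef (i : ℕ) : Ideal (MonoidAlgebra ℚ G) where
  carrier := {x | ∃ Φ, ROp W X ((i : ℤ) - X.dim) Φ ∧ ∀ a ∈ W.gr X i,
    Φ ((LinearMap.mulLeft W.K (W.cl X D) ^ (X.dim - i)) a) = theta act x a}
  add_mem' := by
    rintro x y ⟨Φ, hΦ, h1⟩ ⟨Ψ, hΨ, h2⟩
    refine ⟨Φ + Ψ, rop_opAlg.add hΦ hΨ, fun a ha => ?_⟩
    rw [LinearMap.add_apply, h1 a ha, h2 a ha, map_add, LinearMap.add_apply]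
  zero_mem' := by
    refine ⟨0, rop_opAlg.zero _, fun a _ => ?_⟩
    rw [map_zero, LinearMap.zero_apply, LinearMap.zero_apply]
  smul_mem' := by
    rintro y x ⟨Φ, hΦ, h1⟩
    refine ⟨theta act y * Φ, rop_opAlg.cast (rop_opAlg.mul (rop_theta hact y) hΦ)
      (by ring), fun a ha => ?_⟩
    rw [Module.End.mul_apply, h1 a ha, smul_eq_mul, map_mul, Module.End.mul_apply]

lemma mem_idLef {i : ℕ} {x : MonoidAlgebra ℚ G} : x ∈ idLef hact i ↔
    ∃ Φ, ROp W X ((i : ℤ) - X.dim) Φ ∧ ∀ a ∈ W.gr X i,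
      Φ ((LinearMap.mulLeft W.K (W.cl X D) ^ (X.dim - i)) a) = theta act x a := Iff.rfl

lemma idLef_ann {i : ℕ} (x : MonoidAlgebra ℚ G)
    (hx : ∀ u ∈ W.gr X i, theta act x u = 0) : x ∈ idLef hact i := by
  rw [mem_idLef]
  refine ⟨0, rop_opAlg.zero _, fun a ha => ?_⟩
  rw [hx a ha, LinearMap.zero_apply]

lemma theta_L_apply (x : MonoidAlgebra ℚ G) (m : ℕ) (a : W.H X) :
    theta act x ((LinearMap.mulLeft W.K (W.cl X D) ^ m) a) =
      (LinearMap.mulLeft W.K (W.cl X D) ^ m) (theta act x a) := by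
  have h2 := congrArg (fun F => F a) (theta_L hact x m)
  rwa [Module.End.mul_apply, Module.End.mul_apply] at h2

lemma theta_L_one (x : MonoidAlgebra ℚ G) (a : W.H X) :
    theta act x (LinearMap.mulLeft W.K (W.cl X D) a) =
      LinearMap.mulLeft W.K (W.cl X D) (theta act x a) := by
  have h2 := theta_L_apply hact x 1 a
  rwa [pow_one] at h2

variable [Fintype G]

lemma theta_gr (x : MonoidAlgebra ℚ G) {i : ℕ} {a : W.H X} (ha : a ∈ W.gr X i) :
    theta act x a ∈ W.gr X i :=
  theta_stable (W.gr X i) (fun g _ hu => act_mem hact g hu) x ha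

lemma idLef_right {i : ℕ} (x : MonoidAlgebra ℚ G) (hx : x ∈ idLef hact i)
    (y : MonoidAlgebra ℚ G) : x * y ∈ idLef hact i := by
  rw [mem_idLef] at hx ⊢
  obtain ⟨Φ, hΦ, h1⟩ := hx
  refine ⟨Φ * theta act y, rop_opAlg.cast (rop_opAlg.mul hΦ (rop_theta hact y))
    (by ring), fun a ha => ?_⟩
  rw [Module.End.mul_apply, theta_L_apply hact, h1 _ (theta_gr hact y ha), map_mul,
    Module.End.mul_apply]

omit hact in
lemma theta_nA_apply (H : Subgroup G) (a : W.H X) :
    theta act (nA H) a = ∑ᶠ h : H, act h.1 a := by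
  classical
  have : Fintype H := Fintype.ofFinite H
  rw [theta_nA, finsum_eq_sum_of_fintype, finsum_eq_sum_of_fintype, LinearMap.sum_apply]

omit hact in
lemma theta_nA_fixed (H : Subgroup G) {a : W.H X} (ha : a ∈ fixedBy act H) :
    theta act (nA H) a = (Nat.card H : W.K) • a := by
  classical
  have : Fintype H := Fintype.ofFinite H
  rw [theta_nA_apply, finsum_eq_sum_of_fintype, Finset.sum_congr rfl fun h _ => ha h.1 h.2,
    Finset.sum_const, Finset.card_univ, ← Nat.card_eq_fintype_card, Nat.cast_smul_eq_nsmul]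

omit hact in
lemma theta_nA_mem (H : Subgroup G) (a : W.H X) : theta act (nA H) a ∈ fixedBy act H := by
  intro h hh
  have h1 : theta act (MonoidAlgebra.single h (1 : ℚ) * nA H) a =
      act h (theta act (nA H) a) := by
    rw [map_mul, theta_single, Rat.cast_one, one_smul, Module.End.mul_apply]
  rw [← h1, single_mul_nA hh]

/-- The statement (a) for the quotient by a subgroup and the ideal. -/
lemma quot_iff (H : Subgroup G) (i : ℕ) :
    StatementA W X D (fixedBy act H) i ↔ nA H ∈ idLef hact i := by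
  constructor
  · rintro ⟨z, hz, h⟩
    rw [mem_idLef]
    refine ⟨W.corr (W.cl _ z) * theta act (nA H),
      rop_opAlg.cast (rop_opAlg.mul (Pool.Agent.H447.rop_corr (d := (i : ℤ) - X.dim) (by ring) hz)
        (rop_theta hact (nA H))) (by ring), fun a ha => ?_⟩
    rw [Module.End.mul_apply, theta_L_apply hact]
    exact h _ (theta_gr hact _ ha) (theta_nA_mem H a)
  · intro h
    rw [mem_idLef] at h
    obtain ⟨Φ, hΦ, h1⟩ := h
    obtain ⟨z, hz, hz'⟩ := Pool.Agent.H447.exists_of_rop (p := i) (by ring) hΦ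
    have hc : (Nat.card H : ℚ) ≠ 0 := by exact_mod_cast Nat.card_pos.ne'
    refine ⟨((Nat.card H : ℚ)⁻¹) • z, hz.smul _, fun a ha hfix => ?_⟩
    rw [W.cl_smul, W.corr_smul, hz', LinearMap.smul_apply, h1 a ha, theta_nA_fixed H hfix,
      smul_smul]
    have h3 : ((Nat.card H : ℚ)⁻¹ : ℚ) * (Nat.card H : ℚ) = 1 := inv_mul_cancel₀ hc
    have h4 : (((Nat.card H : ℚ)⁻¹ : ℚ) : W.K) * (Nat.card H : W.K) = 1 := by
      exact_mod_cast congrArg (Rat.cast (K := W.K)) h3
    rw [h4, one_smul]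

omit [Fintype G] hact in
lemma fixed_bot : fixedBy act (⊥ : Subgroup G) = ⊤ := by
  rw [eq_top_iff]
  intro a _ h hh
  rw [Subgroup.mem_bot] at hh
  rw [hh, map_one, Module.End.one_apply]

omit [Fintype G] hact in
lemma fixed_mono {H H' : Subgroup G} (hH : H ≤ H') : fixedBy act H' ≤ fixedBy act H :=
  fun _ ha h hh => ha h (hH hh)

/-- **Finite groups of automorphisms and statement (a) in one degree.** -/
theorem lawsA (i : ℕ) : LawsA W X D act i := by
  refine ⟨ideal_main act (W.gr X i) (fun g _ hu => act_mem hact g hu)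
    (idLef hact i) (fun x hx y => idLef_right hact x hx y)
    (fun x hx => idLef_ann hact x hx) (fun H => quot_iff hact H i) ?_, by rw [fixed_bot]⟩
  rintro H H' hH ⟨z, hz, h⟩
  exact ⟨z, hz, fun a ha hfix => h a ha (fixed_mono hH hfix)⟩

omit [Fintype G] in
/-- The elements `x` of the group ring such that `x` times the projection to the second summand of
the primitive decomposition is given by an algebraic cycle. -/
noncomputable def idPrim (i : ℕ) : Ideal (MonoidAlgebra ℚ G) where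
  carrier := {x | ∃ Φ, ROp W X (-1) Φ ∧
    (∀ a ∈ W.gr X i, (LinearMap.mulLeft W.K (W.cl X D) ^ (X.dim + 1 - i)) a = 0 → Φ a = 0) ∧
    ∀ j, j + 2 = i → ∀ b ∈ W.gr X j,
      Φ (LinearMap.mulLeft W.K (W.cl X D) b) = theta act x b}
  add_mem' := by
    rintro x y ⟨Φ, hΦ, h0, h1⟩ ⟨Ψ, hΨ, k0, k1⟩
    refine ⟨Φ + Ψ, rop_opAlg.add hΦ hΨ, fun a ha hp => ?_, fun j hj b hb => ?_⟩
    · rw [LinearMap.add_apply, h0 a ha hp, k0 a ha hp, add_zero]
    · rw [LinearMap.add_apply, h1 j hj b hb, k1 j hj b hb, map_add, LinearMap.add_apply]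
  zero_mem' := by
    refine ⟨0, rop_opAlg.zero _, fun a _ _ => LinearMap.zero_apply a, fun j _ b _ => ?_⟩
    rw [map_zero, LinearMap.zero_apply, LinearMap.zero_apply]
  smul_mem' := by
    rintro y x ⟨Φ, hΦ, h0, h1⟩
    refine ⟨theta act y * Φ, rop_opAlg.cast (rop_opAlg.mul (rop_theta hact y) hΦ)
      (by ring), fun a ha hp => ?_, fun j hj b hb => ?_⟩
    · rw [Module.End.mul_apply, h0 a ha hp, map_zero]
    · rw [Module.End.mul_apply, h1 j hj b hb, smul_eq_mul, map_mul, Module.End.mul_apply]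

omit [Fintype G] in
lemma mem_idPrim {i : ℕ} {x : MonoidAlgebra ℚ G} : x ∈ idPrim hact i ↔
    ∃ Φ, ROp W X (-1) Φ ∧
    (∀ a ∈ W.gr X i, (LinearMap.mulLeft W.K (W.cl X D) ^ (X.dim + 1 - i)) a = 0 → Φ a = 0) ∧
    ∀ j, j + 2 = i → ∀ b ∈ W.gr X j,
      Φ (LinearMap.mulLeft W.K (W.cl X D) b) = theta act x b := Iff.rfl

lemma idPrim_right {i : ℕ} (x : MonoidAlgebra ℚ G) (hx : x ∈ idPrim hact i)
    (y : MonoidAlgebra ℚ G) : x * y ∈ idPrim hact i := by
  rw [mem_idPrim] at hx ⊢
  obtain ⟨Φ, hΦ, h0, h1⟩ := hx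
  refine ⟨Φ * theta act y, rop_opAlg.cast (rop_opAlg.mul hΦ (rop_theta hact y))
    (by ring), fun a ha hp => ?_, fun j hj b hb => ?_⟩
  · rw [Module.End.mul_apply]
    apply h0 _ (theta_gr hact y ha)
    rw [← theta_L_apply hact, hp, map_zero]
  · rw [Module.End.mul_apply, theta_L_one hact, h1 j hj _ (theta_gr hact y hb), map_mul,
      Module.End.mul_apply]

/-- The statement (b) for the quotient by a subgroup and the ideal. -/
lemma quotB_iff (H : Subgroup G) {i : ℕ} (hi : i ≤ X.dim) :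
    StatementB W X D (fixedBy act H) i ↔ nA H ∈ idPrim hact i := by
  by_cases hn : 1 ≤ X.dim
  swap
  · have hi0 : i = 0 := by omega
    constructor
    · intro _
      exact ⟨0, rop_opAlg.zero _, fun a _ _ => LinearMap.zero_apply a, fun j hj => by omega⟩
    · intro _
      refine ⟨0, SmVar.IsCyc.zero _ _, fun a _ _ _ => ?_, fun j hj => by omega⟩
      rw [map_zero, corr_zero, LinearMap.zero_apply]
  constructor
  · rintro ⟨z, hz, h0, h1⟩
    rw [mem_idPrim]
    refine ⟨W.corr (W.cl _ z) * theta act (nA H),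
      rop_opAlg.cast (rop_opAlg.mul (Pool.Agent.H447.rop_corr (d := -1) (by omega) hz)
        (rop_theta hact (nA H))) (by ring), fun a ha hp => ?_, fun j hj b hb => ?_⟩
    · rw [Module.End.mul_apply]
      apply h0 _ (theta_gr hact _ ha) (theta_nA_mem H a)
      rw [← theta_L_apply hact, hp, map_zero]
    · rw [Module.End.mul_apply, theta_L_one hact]
      exact h1 j hj _ (theta_gr hact _ hb) (theta_nA_mem H b)
  · intro h
    rw [mem_idPrim] at h
    obtain ⟨Φ, hΦ, h0, h1⟩ := h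
    obtain ⟨z, hz, hz'⟩ := Pool.Agent.H447.exists_of_rop (p := X.dim - 1) (by omega) hΦ
    have hc : (Nat.card H : ℚ) ≠ 0 := by exact_mod_cast Nat.card_pos.ne'
    refine ⟨((Nat.card H : ℚ)⁻¹) • z, hz.smul _, fun a ha _ hp => ?_, fun j hj b hb hfix => ?_⟩
    · rw [W.cl_smul, W.corr_smul, hz', LinearMap.smul_apply, h0 a ha hp, smul_zero]
    · rw [W.cl_smul, W.corr_smul, hz', LinearMap.smul_apply, h1 j hj b hb,
        theta_nA_fixed H hfix, smul_smul]
      have h3 : ((Nat.card H : ℚ)⁻¹ : ℚ) * (Nat.card H : ℚ) = 1 := inv_mul_cancel₀ hc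
      have h4 : (((Nat.card H : ℚ)⁻¹ : ℚ) : W.K) * (Nat.card H : W.K) = 1 := by
        exact_mod_cast congrArg (Rat.cast (K := W.K)) h3
      rw [h4, one_smul]

/-- **Finite groups of automorphisms and statement (b) in one degree.** -/
theorem lawsB {i : ℕ} (hi : i ≤ X.dim) : LawsB W X D act i := by
  refine ⟨ideal_main act (W.gr X (i - 2)) (fun g _ hu => act_mem hact g hu)
    (idPrim hact i) (fun x hx y => idPrim_right hact x hx y)
    (fun x hx => ?_) (fun H => quotB_iff hact H hi) ?_, by rw [fixed_bot]⟩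
  · rw [mem_idPrim]
    refine ⟨0, rop_opAlg.zero _, fun a _ _ => LinearMap.zero_apply a, fun j hj b hb => ?_⟩
    obtain rfl : j = i - 2 := by omega
    rw [hx b hb, LinearMap.zero_apply]
  · rintro H H' hH ⟨z, hz, h0, h1⟩
    exact ⟨z, hz, fun a ha hfix hp => h0 a ha (fixed_mono hH hfix) hp,
      fun j hj b hb hfix => h1 j hj b hb (fixed_mono hH hfix)⟩

/-- **Finite groups of automorphisms and the conjecture B.** -/
theorem lawsAll : GroupLaws act ⊤ (fun H => LefschetzOn W X D (fixedBy act H)) :=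
  laws_all (U := fun i => W.gr X i) fun i _ => (lawsA hact i).1

end Action

/-- Statement (a) in all degrees is the conjecture B. -/
theorem lefschetzB_iff {D : X.Cycles} (hD : X.IsCyc 1 D) (hHL : HardLefschetz W X D) :
    LefschetzB W X D ↔ LefschetzOn W X D ⊤ := by
  have hLh : IsHom (W.gr X) 2 (LinearMap.mulLeft W.K (W.cl X D)) := by
    simpa using rop_opAlg.hom (rop_mulLeft (W := W) hD)
  constructor
  · intro hB i hi
    obtain ⟨Φ, hΦ, hLam⟩ := lefschetzB_iff_rop.1 hB
    obtain ⟨z, hz, hz'⟩ := Pool.Agent.H447.exists_of_rop (p := i) (d := (i : ℤ) - X.dim) (by ring)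
      (rop_opAlg.cast (rop_opAlg.pow hΦ (X.dim - i)) (by omega))
    refine ⟨z, hz, fun a ha _ => ?_⟩
    rw [hz']
    exact lam_pow_L_pow hLh W_hbd hHL hLam (c := X.dim - i) (by omega)
      (by rw [show X.dim - (X.dim - i) = i by omega]; exact ha)
  · intro h
    apply lefschetzB_of_inj hD hHL
    intro c hc
    obtain ⟨z, hz, hz'⟩ := h (X.dim - c) (by omega)
    refine ⟨W.corr (W.cl _ z), KOp.gen (by omega) hz, fun a ha h0 => ?_⟩
    obtain ⟨b, hb, hb'⟩ := (hHL (X.dim - c) (by omega)).2 a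
      (by rw [show 2 * X.dim - (X.dim - c) = X.dim + c by omega]; exact ha)
    have h1 := hz' b hb trivial
    rw [hb', h0] at h1
    rw [← hb', ← h1, map_zero]

end Pool.Agent.H74.LG
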