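import Pool.Graph.R_pool_sql_team_seeded_64922ed1.X252.GC
import Pool.Graph.R_seed8.H447R3.WtDefs
import Pool.Graph.R_seed8.H914R2.KDefs

/-!
# The Lefschetz standard conjecture and finite groups of automorphisms: definitions
-/

set_option autoImplicit false

open CategoryTheory AlgebraicGeometry

universe u v

namespace Pool.Agent.H74.LG

open Pool.Agent.H914 VarClass Obj WeilCohomology Pool.Agent.X252.GA Pool.Agent.X252.GC

section Rep

variable {K V : Type*} [Field K] [AddCommGroup V] [Module K V] {G : Type} [Group G]

/-- The operator `T` inverts `L ^ (n - i)` on the elements of degree `i` in the subspace `F`. -/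
def InvertsOn (gr : ℕ → Submodule K V) (n : ℕ) (L T : V →ₗ[K] V) (F : Submodule K V) (i : ℕ) :
    Prop :=
  ∀ a ∈ gr i, a ∈ F → T ((L ^ (n - i)) a) = a

/-- The operator `T` is, on the subspace `F`, the projection to the second summand of the primitive
decomposition of the piece of degree `i`: it is zero on the primitive elements of degree `i` and
sends `L b` to `b` for `b` of degree `i - 2`. -/
def RetractsOn (gr : ℕ → Submodule K V) (n : ℕ) (L T : V →ₗ[K] V) (F : Submodule K V) (i : ℕ) :
    Prop :=
  (∀ a ∈ gr i, a ∈ F → (L ^ (n + 1 - i)) a = 0 → T a = 0) ∧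
    ∀ j, j + 2 = i → ∀ b ∈ gr j, b ∈ F → T (L b) = b

/-- The subspace of the elements fixed by the subgroup `H`. -/
def fixedBy (act : G →* Module.End K V) (H : Subgroup G) : Submodule K V where
  carrier := {a | ∀ h ∈ H, act h a = a}
  add_mem' := fun ha hb h hh => by rw [map_add, ha h hh, hb h hh]
  zero_mem' := fun _ _ => map_zero _
  smul_mem' := fun c a ha h hh => by rw [map_smul, ha h hh]

/-- Every irreducible rational representation of `G` which occurs in the subspace `U` (there is a
nonzero equivariant homomorphism to `U`) and has a nonzero vector fixed by `H` has for some `j` a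
nonzero vector fixed by `D j`. -/
def DominatedOn (act : G →* Module.End K V) (U : Submodule K V) (H : Subgroup G) {ι : Type}
    (D : ι → Subgroup G) : Prop :=
  ∀ (S : Type) [AddCommGroup S] [Module ℚ S] (σ : G →* Module.End ℚ S), Irred σ →
    Occurs act U σ → (∃ s : S, s ≠ 0 ∧ ∀ h ∈ H, σ h s = s) →
      ∃ j, ∃ s : S, s ≠ 0 ∧ ∀ d ∈ D j, σ d s = s

/-- Some nonzero irreducible rational representation of `G`, in which the elements of `G` different
from one fix only zero, occurs in the subspace `U`. -/
def FreeOn (act : G →* Module.End K V) (U : Submodule K V) : Prop :=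
  ∃ (S : Type) (_ : AddCommGroup S) (_ : Module ℚ S) (σ : G →* Module.End ℚ S), Irred σ ∧
    Occurs act U σ ∧ (∃ s : S, s ≠ 0) ∧ ∀ g : G, g ≠ 1 → ∀ s : S, σ g s = s → s = 0

/-- The statement `Q` passes from `X / H` to `X / H'` for `H ≤ H'`. -/
def UpwardLaw (Q : Subgroup G → Prop) : Prop := ∀ H H' : Subgroup G, H ≤ H' → Q H → Q H'

/-- If every irreducible rational representation of `G` which occurs in `U` and has a nonzero vector
fixed by `H` has for some `j` a nonzero vector fixed by `E j`, then `Q` holds for `X / H` if it holds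
for the `X / E j`. -/
def DominationLaw (act : G →* Module.End K V) (U : Submodule K V) (Q : Subgroup G → Prop) : Prop :=
  ∀ (H : Subgroup G) (ι : Type) (E : ι → Subgroup G), DominatedOn act U H E →
    (∀ j, Q (E j)) → Q H

/-- If `c` is an involution, `Q` holds for `X` if and only if it holds for `X / c` and
`X / [G, c]`. -/
def InvolutionLaw (Q : Subgroup G → Prop) : Prop :=
  ∀ c : G, c * c = 1 → (Q ⊥ ↔ Q (Subgroup.zpowers c) ∧ Q (Pool.Agent.X310.Mu.comms c))

/-- If `c` is an involution in a nonabelian simple subgroup of `G`, `Q` holds for `X` if and only if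
it holds for `X / c`. -/
def SimpleGroupLaw (Q : Subgroup G → Prop) : Prop :=
  ∀ c : G, InSimple c → c ≠ 1 → c * c = 1 → (Q ⊥ ↔ Q (Subgroup.zpowers c))

/-- If the `E j` (at least two) are a partition of a subgroup of `G`, `Q` holds for `X` if and only
if it holds for all `X / E j`. -/
def PartitionLaw (Q : Subgroup G → Prop) : Prop :=
  ∀ (ι : Type) (E : ι → Subgroup G) (K : Subgroup G), Partitions K E → (Q ⊥ ↔ ∀ j, Q (E j))

/-- If `Q` does not hold for `X` but for the quotients by all subgroups of prime order, then a fixed
point free irreducible rational representation of `G` occurs in `U` (so that `G` is a Frobenius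
complement), the subgroups of `G` of order `p q` and the commutative subgroups are cyclic and `G`
has at most one involution. -/
def PrimeOrderLaw (act : G →* Module.End K V) (U : Submodule K V) (Q : Subgroup G → Prop) : Prop :=
  ¬ Q ⊥ → (∀ P : Subgroup G, (Nat.card P).Prime → Q P) → FreeOn act U ∧ CyclicSubgroups G

/-- `Q` holds for `X` if and only if it holds for `X / N` for the kernels `N` of the irreducible
rational representations which occur in `U`. -/
def KernelLaw (act : G →* Module.End K V) (U : Submodule K V) (Q : Subgroup G → Prop) : Prop :=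
  Q ⊥ ↔ ∀ (S : Type) [AddCommGroup S] [Module ℚ S] (σ : G →* Module.End ℚ S), Irred σ →
    Occurs act U σ → Q σ.ker

/-- If `G` is commutative, `Q` holds for `X` if and only if it holds for the quotients `X / H` with
`G / H` cyclic (`G` is generated by `H` and one element). -/
def AbelianLaw (Q : Subgroup G → Prop) : Prop :=
  (∀ x y : G, x * y = y * x) →
    (Q ⊥ ↔ ∀ H : Subgroup G, (∃ g, H ⊔ Subgroup.zpowers g = ⊤) → Q H)

/-- The laws relating the truth of a statement `Q H` on the quotients `X / H` by the subgroups `H`
of the finite group `G`, where `U` is a subspace of the cohomology of `X` on which `G` acts. -/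
def GroupLaws (act : G →* Module.End K V) (U : Submodule K V) (Q : Subgroup G → Prop) : Prop :=
  UpwardLaw Q ∧ DominationLaw act U Q ∧ InvolutionLaw Q ∧ SimpleGroupLaw Q ∧ PartitionLaw Q ∧
    PrimeOrderLaw act U Q ∧ KernelLaw act U Q ∧ AbelianLaw Q

end Rep

variable {k : Type u} [Field k] {𝒱 : VarClass k} {ops : CycleOps 𝒱}

/-- Statement (a) in the degree `i ≤ dim X` for the part `F` of the cohomology of `X`: an algebraic
cycle (of codimension `i` on `X × X`, with rational coefficients) induces the inverse of the cup
product `ξ ^ (dim X - i)` from the part of `F` of degree `i` to its image in degree `2 dim X - i`,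
where `ξ` is the class of the divisor `D`. For `F = ⊤` this is statement (a) for `X`. If `F` is the
part `H(X)^H` fixed by a finite group `H` of automorphisms, it is statement (a) for the quotient
`X / H` (possibly singular), whose cohomology is `H(X)^H` and whose algebraic correspondences are
the operators on `H(X)^H` given by cycles on `X × X`. -/
def StatementA (W : WeilCohomology.{u, v} ops) (X : 𝒱.Obj) (D : X.Cycles)
    (F : Submodule W.K (W.H X)) (i : ℕ) : Prop :=
  ∃ z, (X.prod X).IsCyc i z ∧
    InvertsOn (W.gr X) X.dim (LinearMap.mulLeft W.K (W.cl X D)) (W.corr (W.cl (X.prod X) z)) F i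

/-- Statement (b) in the degree `i ≤ dim X` for the part `F` of the cohomology of `X`: an algebraic
cycle of codimension `dim X - 1` on `X × X` induces on `F` the projection `H^i(X) → H^(i - 2)(X)`
of the primitive decomposition `H^i(X) = P^i(X) ⊕ ξ H^(i - 2)(X)`. For `F = ⊤` this is statement (b)
for `X`, and for `F = H(X)^H` it is statement (b) for `X / H`. -/
def StatementB (W : WeilCohomology.{u, v} ops) (X : 𝒱.Obj) (D : X.Cycles)
    (F : Submodule W.K (W.H X)) (i : ℕ) : Prop :=
  ∃ z, (X.prod X).IsCyc (X.dim - 1) z ∧
    RetractsOn (W.gr X) X.dim (LinearMap.mulLeft W.K (W.cl X D)) (W.corr (W.cl (X.prod X) z)) F i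

/-- The conjecture B for the part `F`: statement (a) in all degrees `i ≤ dim X`. -/
def LefschetzOn (W : WeilCohomology.{u, v} ops) (X : 𝒱.Obj) (D : X.Cycles)
    (F : Submodule W.K (W.H X)) : Prop :=
  ∀ i ≤ X.dim, StatementA W X D F i

variable {G : Type} [Group G]

/-- The group `G` acts on the cohomology of `X` through endomorphisms of `X`, and fixes the class of
the divisor `D`. For a group of automorphisms of `X` the element `g` acts as `(g⁻¹)^*`. -/
def ActsBy (W : WeilCohomology.{u, v} ops) (X : 𝒱.Obj) (D : X.Cycles)
    (act : G →* Module.End W.K (W.H X)) : Prop :=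
  (∀ g, ∃ φ : X ⟶ X, ∀ a, act g a = W.map φ a) ∧ ∀ g, act g (W.cl X D) = W.cl X D

/-- The morphism `f : X → Y` of varieties in the class `𝒱` (smooth and proper) is in cohomology the
quotient by the group `H` of automorphisms of `X`: the dimensions are equal, `f^*` has values in
the fixed part, `f^* f_*` is the sum of the elements of `H`, and `f_* f^*` is the multiplication by
the order of `H`. -/
structure IsQuotientMap (W : WeilCohomology.{u, v} ops) {X Y : 𝒱.Obj}
    (act : G →* Module.End W.K (W.H X)) (H : Subgroup G) (f : X ⟶ Y) : Prop where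
  dim_eq : Y.dim = X.dim
  map_fixed : ∀ b, W.map f b ∈ fixedBy act H
  pull_push : ∀ a, W.map f (W.push f a) = ∑ᶠ h : H, act h.1 a
  push_pull : ∀ b, W.push f (W.map f b) = (Nat.card H : W.K) • b

/-- The laws hold for the statement (a) in the degree `i`, with `U = H^i(X)`. -/
def LawsA (W : WeilCohomology.{u, v} ops) (X : 𝒱.Obj) (D : X.Cycles)
    (act : G →* Module.End W.K (W.H X)) (i : ℕ) : Prop :=
  GroupLaws act (W.gr X i) (fun H => StatementA W X D (fixedBy act H) i) ∧
    (StatementA W X D (fixedBy act ⊥) i ↔ StatementA W X D ⊤ i)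

/-- The laws hold for the statement (b) in the degree `i`, with `U = H^(i - 2)(X)`. -/
def LawsB (W : WeilCohomology.{u, v} ops) (X : 𝒱.Obj) (D : X.Cycles)
    (act : G →* Module.End W.K (W.H X)) (i : ℕ) : Prop :=
  GroupLaws act (W.gr X (i - 2)) (fun H => StatementB W X D (fixedBy act H) i) ∧
    (StatementB W X D (fixedBy act ⊥) i ↔ StatementB W X D ⊤ i)

/-- The laws hold for the conjecture B (for all divisors on `X` satisfying hard Lefschetz). -/
def LawsLefschetz (W : WeilCohomology.{u, v} ops) (X : 𝒱.Obj) (D : X.Cycles)
    (act : G →* Module.End W.K (W.H X)) : Prop :=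
  GroupLaws act ⊤ (fun H => LefschetzOn W X D (fixedBy act H)) ∧
    ∀ D₀ : X.Cycles, X.IsCyc 1 D₀ → HardLefschetz W X D₀ →
      (LefschetzOn W X D (fixedBy act ⊥) ↔ LefschetzB W X D₀)

/-- The conjecture B for the part `F` of the cohomology of `X` is the conjecture B for `Y` and any
divisor satisfying hard Lefschetz. -/
def QuotientIsB (W : WeilCohomology.{u, v} ops) (X : 𝒱.Obj) (D : X.Cycles)
    (F : Submodule W.K (W.H X)) (Y : 𝒱.Obj) : Prop :=
  ∀ E₀ : Y.Cycles, Y.IsCyc 1 E₀ → HardLefschetz W Y E₀ →
    (LefschetzOn W X D F ↔ LefschetzB W Y E₀)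

/-- The divisor `D` comes, in cohomology, from a divisor `E` on `Y` satisfying hard Lefschetz, and
the statements (a), (b) for the part `F` of the cohomology of `X` are the ones for `Y` and `E`. -/
def QuotientIsAB (W : WeilCohomology.{u, v} ops) {X : 𝒱.Obj} (D : X.Cycles)
    (F : Submodule W.K (W.H X)) {Y : 𝒱.Obj} (f : X ⟶ Y) : Prop :=
  ∃ E : Y.Cycles, Y.IsCyc 1 E ∧ W.map f (W.cl Y E) = W.cl X D ∧ HardLefschetz W Y E ∧
    ∀ i, (StatementA W X D F i ↔ StatementA W Y E ⊤ i) ∧
      (StatementB W X D F i ↔ StatementB W Y E ⊤ i)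

end Pool.Agent.H74.LG
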