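import Pool.Agent.H74.LG.ShaStm
import Pool.Agent.H74.LG.Core
import Pool.Graph.R_pool_sql_team_seeded_64922ed1.X310.FgA

/-!
# Tate-Shafarevich groups in a Galois extension: the proof
-/

set_option autoImplicit false

open Finset Pool.Agent.X328.PB Pool.Agent.X310.Mu

namespace Pool.Agent.H74.LG.Sha

open Pool.Agent.X252.GA Pool.Agent.X252.GC Pool.Agent.X310.Fg

variable {G : Type} [Group G] [Fintype G]

/-- Two-sided ideals of the rational group ring. -/
theorem ideal_laws (I : Ideal (MonoidAlgebra ℚ G)) (hr : ∀ x ∈ I, ∀ y, x * y ∈ I)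
    {Q : Subgroup G → Prop} (hQ : ∀ H, Q H ↔ nA H ∈ I) : FieldLaws Q := by
  have h1 : Q ⊥ ↔ (1 : MonoidAlgebra ℚ G) ∈ I := by rw [hQ, nA_bot]
  have hdom : DominationLaw Q := by
    intro H ι E hE h
    rw [hQ]
    exact mem_of_dominated hE I hr fun j => (hQ _).1 (h j)
  have hmono : ∀ H H' : Subgroup G, H ≤ H' → Q H → Q H' := by
    intro H H' hH h
    refine hdom H' Unit (fun _ => H) ?_ fun _ => h
    intro V _ _ ρ _ hv
    obtain ⟨v, hv0, hv⟩ := hv
    exact ⟨(), v, hv0, fun d hd => hv d (hH hd)⟩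
  have hup : ∀ (H : Subgroup G), Q ⊥ → Q H := fun H h => hmono _ _ bot_le h
  have hdown : ∀ (ι : Type) (D : ι → Subgroup G), Dominated (⊥ : Subgroup G) D →
      (∀ j, Q (D j)) → Q ⊥ := fun ι D hD h => hdom ⊥ ι D hD h
  have hker : KernelLaw Q := by
    refine ⟨fun h S _ _ σ _ _ => hup _ h, fun h => ?_⟩
    refine hdown {N : Subgroup G // ∃ (S : Type) (_ : AddCommGroup S) (_ : Module ℚ S)
      (σ : G →* Module.End ℚ S), Irred σ ∧ (∃ s : S, s ≠ 0) ∧ σ.ker = N} (fun N => N.1) ?_ ?_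
    · intro S _ _ σ hσ hv
      obtain ⟨v, hv0, -⟩ := hv
      refine ⟨⟨σ.ker, S, _, _, σ, hσ, ⟨v, hv0⟩, rfl⟩, v, hv0, fun d hd => ?_⟩
      have h1 : σ d = 1 := hd
      rw [h1, Module.End.one_apply]
    · rintro ⟨N, S, i1, i2, σ, hσ, ho, rfl⟩
      exact h S σ hσ ho
  refine ⟨hmono, hdom, ?_, ?_, ?_, ?_, hker, ?_⟩
  · intro c hc
    refine ⟨fun h => ⟨hup _ h, hup _ h⟩, fun h => hdown _ _ (dominated_two hc ⊥) ?_⟩
    intro b
    cases b
    · exact h.2
    · exact h.1
  · rintro c ⟨S, hSs, hS, hcS⟩ hc1 hc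
    exact ⟨hup _, fun h => hdown _ _ (dominated_comms hc (comms_of_simple S hS hcS hc1) ⊥)
      fun _ => h⟩
  · rintro ι D K ⟨hf, hι, hle, hpart⟩
    exact ⟨fun h j => hup _ h, hdown _ _ (dominated_partition D K hι hle hpart ⊥)⟩
  · intro h0 hP
    obtain ⟨k1, -, k3⟩ := structure_of_ideal I hr (fun h => h0 (h1.2 h))
      fun P hPp => (hQ _).1 (hP P hPp)
    exact ⟨k1, k3⟩
  · intro hcomm
    refine ⟨fun h H _ => hup _ h, fun h => hker.2 ?_⟩
    intro S _ _ σ hσ ho
    exact h _ (LG.cyclic_ker σ hσ hcomm ho)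

variable (T : ShaData G)

/-- The data with the notations of the library. -/
noncomputable def toTransfer : TransferData G where
  A := T.sha ⊥
  act := T.act
  B := T.sha
  res := T.res
  cor := T.cor
  res_cor := T.res_cor
  cor_res := T.cor_res
  torsion_A := T.torsion ⊥
  torsion_B := T.torsion

lemma toQ_sumD (H : Subgroup G) : toQ G (sumD H) = nA H := by
  classical
  have : Fintype H := Fintype.ofFinite H
  rw [sumD, finsum_eq_sum_of_fintype, map_sum]
  unfold nA
  refine Finset.sum_bij' (fun h _ => h.1) (fun g hg => ⟨g, by simpa using hg⟩)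
    ?_ ?_ ?_ ?_ ?_
  · intro h _; simp
  · intro g _; simp
  · intro h _; simp
  · intro g _; simp
  · intro h _
    rw [toQ_of]
    rfl

lemma finite_range_mul (y z : ZG G)
    (hz : (Set.range (act' (toTransfer T) z)).Finite) :
    (Set.range (act' (toTransfer T) (y * z))).Finite := by
  refine (hz.image (act' (toTransfer T) y)).subset ?_
  rintro _ ⟨a, rfl⟩
  exact ⟨act' (toTransfer T) z a, ⟨a, rfl⟩, by rw [map_mul, Module.End.mul_apply]⟩

lemma finite_range_mul' (y z : ZG G)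
    (hy : (Set.range (act' (toTransfer T) y)).Finite) :
    (Set.range (act' (toTransfer T) (y * z))).Finite := by
  refine hy.subset ?_
  rintro _ ⟨a, rfl⟩
  exact ⟨act' (toTransfer T) z a, by rw [map_mul, Module.End.mul_apply]⟩

/-- The elements of the group ring a multiple of which has a finite image. -/
noncomputable def finIdeal : Ideal (MonoidAlgebra ℚ G) where
  carrier := {x | ∃ (m : ℕ) (y : ZG G), m ≠ 0 ∧ toQ G y = m • x ∧
    (Set.range (act' (toTransfer T) y)).Finite}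
  add_mem' := by
    rintro x x' ⟨m, y, hm, hy, hf⟩ ⟨n, z, hn, hz, hg⟩
    refine ⟨m * n, n • y + m • z, mul_ne_zero hm hn, ?_, ?_⟩
    · rw [map_add, map_nsmul, map_nsmul, hy, hz, smul_add, smul_smul, smul_smul, mul_comm n m]
    · refine ((hf.prod hg).image fun p => n • p.1 + m • p.2).subset ?_
      rintro _ ⟨a, rfl⟩
      exact ⟨(act' (toTransfer T) y a, act' (toTransfer T) z a), ⟨⟨a, rfl⟩, ⟨a, rfl⟩⟩, by
        rw [map_add, map_nsmul, map_nsmul, LinearMap.add_apply, LinearMap.smul_apply,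
          LinearMap.smul_apply]⟩
  zero_mem' := by
    refine ⟨1, 0, one_ne_zero, by rw [map_zero, smul_zero], (Set.finite_singleton 0).subset ?_⟩
    rintro _ ⟨a, rfl⟩
    rw [map_zero, LinearMap.zero_apply]
    rfl
  smul_mem' := by
    rintro c x ⟨m, y, hm, hy, hf⟩
    obtain ⟨n, c', hn, hc⟩ := den c
    refine ⟨n * m, c' * y, mul_ne_zero hn hm, ?_, finite_range_mul T c' y hf⟩
    rw [map_mul, hc, hy, smul_eq_mul, smul_mul_smul_comm]

lemma finIdeal_right (x : MonoidAlgebra ℚ G) (hx : x ∈ finIdeal T) (c : MonoidAlgebra ℚ G) :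
    x * c ∈ finIdeal T := by
  obtain ⟨m, y, hm, hy, hf⟩ := hx
  obtain ⟨n, c', hn, hc⟩ := den c
  refine ⟨m * n, y * c', mul_ne_zero hm hn, ?_, finite_range_mul' T y c' hf⟩
  rw [map_mul, hc, hy, smul_mul_smul_comm]

lemma finite_of_mul {M : Type} [AddCommGroup M] {N : ℕ} (hker : {x : M | N • x = 0}.Finite)
    (him : (Set.range fun x : M => N • x).Finite) : Finite M := by
  rw [← Set.finite_univ_iff]
  refine Set.Finite.of_finite_fibers (fun x : M => N • x) (by rwa [Set.image_univ]) ?_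
  rintro _ ⟨x, -, rfl⟩
  refine (hker.image fun y => y + x).subset ?_
  rintro z ⟨-, hz⟩
  have h1 : N • z = N • x := hz
  exact ⟨z - x, by rw [Set.mem_ofPred_eq, smul_sub, h1, sub_self], sub_add_cancel z x⟩

lemma finite_iff (H : Subgroup G) : Finite (T.sha H) ↔ nA H ∈ finIdeal T := by
  constructor
  · intro h
    refine ⟨1, sumD H, one_ne_zero, by rw [toQ_sumD, one_smul], ?_⟩
    refine (Set.finite_range (T.res H)).subset ?_
    rintro _ ⟨a, rfl⟩
    exact ⟨T.cor H a, (sumD_act (toTransfer T) H a).symm⟩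
  · rintro ⟨m, y, hm, hy, hf⟩
    have h1 : y = m • sumD H := toQ_inj (by rw [hy, map_nsmul, toQ_sumD])
    have hc : Nat.card H ≠ 0 := Nat.card_pos.ne'
    refine finite_of_mul (N := m * Nat.card H * Nat.card H)
      (T.torsion H _ (mul_ne_zero (mul_ne_zero hm hc) hc)) ((hf.image (T.cor H)).subset ?_)
    rintro _ ⟨b, rfl⟩
    refine ⟨act' (toTransfer T) y (T.res H b), ⟨T.res H b, rfl⟩, ?_⟩
    have h2 : act' (toTransfer T) y (T.res H b) = m • T.res H (T.cor H (T.res H b)) := by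
      rw [h1, map_nsmul, LinearMap.smul_apply]
      exact congrArg (fun z => m • z) (sumD_act (toTransfer T) H (T.res H b))
    rw [h2, T.cor_res, map_nsmul, map_nsmul, map_nsmul, T.cor_res]
    simp only [smul_smul, mul_assoc]

theorem main : FieldLaws (fun H => Finite (T.sha H)) :=
  ideal_laws (finIdeal T) (finIdeal_right T) (finite_iff T)

end Pool.Agent.H74.LG.Sha
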