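import Pool.Graph.R_pool_sql_team_seeded_64922ed1.X252.GC

/-!
# Tate-Shafarevich groups in a Galois extension: the statement
-/

set_option autoImplicit false

namespace Pool.Agent.H74.LG.Sha

open Pool.Agent.X252.GA Pool.Agent.X252.GC

/-- The Tate-Shafarevich groups of an elliptic curve (or abelian variety) `E` over a number field `k`
in a finite Galois extension `L` of `k` with the group `G`: `sha H` is the group `Ш(E / L ^ H)` over the
fixed field of the subgroup `H`, so `sha ⊥` is `Ш(E / L)`, with its action of `G`, with the
restriction maps to `Ш(E / L)` and the corestriction maps (transfers). Restriction after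
corestriction is the sum of the elements of `H`, corestriction after restriction is the
multiplication by the order of `H`, and the `n`-torsion subgroups are finite for `n ≥ 1`
(weak Mordell-Weil theorem). -/
structure ShaData (G : Type) [Group G] where
  /-- the groups `Ш(E / L ^ H)` -/
  sha : Subgroup G → Type
  [grp : ∀ H, AddCommGroup (sha H)]
  /-- the action of `G` on `Ш(E / L)` -/
  act : Representation ℤ G (sha ⊥)
  /-- restriction -/
  res : ∀ H, sha H →ₗ[ℤ] sha ⊥
  /-- corestriction -/
  cor : ∀ H, sha ⊥ →ₗ[ℤ] sha H
  res_cor : ∀ H x, res H (cor H x) = ∑ᶠ h : H, act h x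
  cor_res : ∀ H y, cor H (res H y) = Nat.card H • y
  torsion : ∀ H, ∀ n : ℕ, n ≠ 0 → {x : sha H | n • x = 0}.Finite

attribute [instance] ShaData.grp

variable {G : Type} [Group G]

/-- If every irreducible rational representation of `G` with a nonzero vector fixed by `H` has for
some `j` a nonzero vector fixed by `E j`, then `Q` holds for `H` if it holds for all `E j`. -/
def DominationLaw (Q : Subgroup G → Prop) : Prop :=
  ∀ (H : Subgroup G) (ι : Type) (E : ι → Subgroup G), Dominated H E → (∀ j, Q (E j)) → Q H

/-- If `c` is an involution, `Q` holds for `⊥` if and only if it holds for `⟨c⟩` and `[G, c]`. -/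
def InvolutionLaw (Q : Subgroup G → Prop) : Prop :=
  ∀ c : G, c * c = 1 → (Q ⊥ ↔ Q (Subgroup.zpowers c) ∧ Q (Pool.Agent.X310.Mu.comms c))

/-- If `c` is an involution in a nonabelian simple subgroup of `G`, `Q` holds for `⊥` if and only if
it holds for `⟨c⟩`. -/
def SimpleGroupLaw (Q : Subgroup G → Prop) : Prop :=
  ∀ c : G, InSimple c → c ≠ 1 → c * c = 1 → (Q ⊥ ↔ Q (Subgroup.zpowers c))

/-- If the `E j` (at least two) are a partition of a subgroup of `G`, `Q` holds for `⊥` if and only
if it holds for all `E j`. -/
def PartitionLaw (Q : Subgroup G → Prop) : Prop :=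
  ∀ (ι : Type) (E : ι → Subgroup G) (K : Subgroup G), Partitions K E → (Q ⊥ ↔ ∀ j, Q (E j))

/-- If `Q` does not hold for `⊥` but for all subgroups of prime order, then `G` has a nonzero
irreducible rational representation in which only `1` has nonzero fixed vectors (so that `G` is a
Frobenius complement), the subgroups of `G` of order `p q` and the commutative subgroups are cyclic
and `G` has at most one involution. -/
def PrimeOrderLaw (Q : Subgroup G → Prop) : Prop :=
  ¬ Q ⊥ → (∀ P : Subgroup G, (Nat.card P).Prime → Q P) → FixedPointFree G ∧ CyclicSubgroups G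

/-- `Q` holds for `⊥` if and only if it holds for the kernels of the irreducible rational
representations of `G`. -/
def KernelLaw (Q : Subgroup G → Prop) : Prop :=
  Q ⊥ ↔ ∀ (S : Type) [AddCommGroup S] [Module ℚ S] (σ : G →* Module.End ℚ S), Irred σ →
    (∃ s : S, s ≠ 0) → Q σ.ker

/-- If `G` is commutative, `Q` holds for `⊥` if and only if it holds for the subgroups `H` with
`G / H` cyclic (`G` is generated by `H` and one element). -/
def AbelianLaw (Q : Subgroup G → Prop) : Prop :=
  (∀ x y : G, x * y = y * x) →
    (Q ⊥ ↔ ∀ H : Subgroup G, (∃ g, H ⊔ Subgroup.zpowers g = ⊤) → Q H)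

/-- The laws relating the truth of a statement `Q H` on the fixed fields of the subgroups `H` of the
Galois group. -/
def FieldLaws (Q : Subgroup G → Prop) : Prop :=
  (∀ H H' : Subgroup G, H ≤ H' → Q H → Q H') ∧ DominationLaw Q ∧ InvolutionLaw Q ∧
    SimpleGroupLaw Q ∧ PartitionLaw Q ∧ PrimeOrderLaw Q ∧ KernelLaw Q ∧ AbelianLaw Q

end Pool.Agent.H74.LG.Sha
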